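import Pool.Agent.Lib.LU2H.Dense2
import Pool.Agent.Lib.LUC.AscPerf

/-!
# LU2H: the components of the valuation rings with a dense subfield all of whose components have
defect at most one are good
-/

set_option autoImplicit false

namespace Pool.Agent.LU2H

open Pool.Agent.LU2 Pool.Agent.LU2G
open Pool.Agent.LUC (DenseIn ext_le ext_lt ext_eq_one ext_lt_one LUrV FGField fgField_of_fg ascent
  ascends_lur IsSimple)
open Polynomial

universe u

section Compare

variable {k K : Type u} [Field k] [Field K] [Algebra k K] {V : ValuationSubring K}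

private theorem isPar_iff' (R : Subalgebra k K) {n : ℕ} (z : Fin n → K) :
    Pool.Agent.LU2.IsPar V R z ↔ Pool.Agent.LUM.IsPar V R z :=
  ⟨fun h => ⟨h.mem, h.ne, h.pos, h.gen, h.dim⟩, fun h => ⟨h.mem, h.ne, h.pos, h.gen, h.dim⟩⟩

theorem lur_iff : LUr k V ↔ LUrV k V := by
  constructor
  · intro h A hfg hA hfrac T hT
    obtain ⟨A', g, hch, n, z, J, hz, hg, ht⟩ := h A hfg hA hfrac T hT
    exact ⟨A', g, hch, n, z, J, (isPar_iff' _ _).1 hz, hg, ht⟩
  · intro h A hfg hA hfrac T hT
    obtain ⟨A', g, hch, n, z, J, hz, hg, ht⟩ := h A hfg hA hfrac T hT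
    exact ⟨A', g, hch, n, z, J, (isPar_iff' _ _).2 hz, hg, ht⟩

/-- Transfer to the whole field as an intermediate field. -/
theorem lur_top (hK : (⊤ : IntermediateField k K).FG) (h : LUr k V) (L : IntermediateField k K)
    (hL : L = ⊤) : LUr k (V.comap (algebraMap L K)) := by
  subst hL
  rw [lur_iff] at h ⊢
  let j : K →ₐ[k] (⊤ : IntermediateField k K) :=
    (IntermediateField.topEquiv (F := k) (E := K)).symm.toAlgHom
  have hj : ∀ x : K, algebraMap (⊤ : IntermediateField k K) K (j x) = x := fun x => rfl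
  have hjj : ∀ x : (⊤ : IntermediateField k K),
      j (algebraMap (⊤ : IntermediateField k K) K x) = x := fun x => rfl
  refine ascends_lur k K (⊤ : IntermediateField k K) V _ j (fun x => ?_) (fgField_of_fg hK)
    (fun a b hb => ?_) 0 ⟨fun x => ?_, Or.inr ⟨X, ?_, ?_⟩⟩ h
  · rw [ValuationSubring.mem_comap, hj]
  · refine ⟨algebraMap (⊤ : IntermediateField k K) K a, ?_⟩
    have h1 : a - (j : K →+* (⊤ : IntermediateField k K))
        (algebraMap (⊤ : IntermediateField k K) K a) = 0 := sub_eq_zero.2 (hjj a).symm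
    rw [h1, map_zero]
    exact zero_lt_iff.2 ((Valuation.ne_zero_iff _).2 hb)
  · refine ⟨C (algebraMap (⊤ : IntermediateField k K) K x), 1, ?_, ?_⟩
    · rw [eval₂_one]
      exact one_ne_zero
    · rw [eval₂_one, eval₂_C, div_one]
      exact (hjj x).symm
  · rw [eval₂_X]
  · rw [derivative_X, eval₂_one]
    exact one_ne_zero

/-- The residue map of the trivial valuation ring. -/
theorem isRes_top (hk : ∀ c : k, algebraMap k K c ∈ V) :
    IsRes (k := k) V ⊤ (⊤ : ValuationSubring K).subtype V := by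
  refine ⟨le_top, hk, fun x => ⟨⟨x, ValuationSubring.mem_top x⟩, rfl⟩, fun c h => rfl,
    fun x => Iff.rfl⟩

theorem compGood_top (hK : (⊤ : IntermediateField k K).FG)
    (hk : ∀ c : k, algebraMap k K c ∈ V) (h : LUr k V) : CompGood k V ⊤ := by
  refine ⟨K, inferInstance, inferInstance, (⊤ : ValuationSubring K).subtype, V, isRes_top hk,
    fun A _ _ hfrac _ => lur_top hK h _ ?_⟩
  rw [eq_top_iff]
  intro f _
  obtain ⟨a, ha, b, hb, -, rfl⟩ := hfrac f
  exact div_mem
    (IntermediateField.subset_adjoin _ _ ⟨⟨a, ValuationSubring.mem_top a⟩, ha, rfl⟩)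
    (IntermediateField.subset_adjoin _ _ ⟨⟨b, ValuationSubring.mem_top b⟩, hb, rfl⟩)

end Compare

section Main

variable {k K : Type} [Field k] [Field K] [Algebra k K]

/-- The defect of a valuation ring of rank one. -/
theorem defLE_of (hfin : Algebra.trdeg k K < Cardinal.aleph0) {V : ValuationSubring K}
    (hk : ∀ c : k, algebraMap k K c ∈ V) (hk₁ : ∀ c : k, algebraMap k K c ∈ (⊤ : ValuationSubring K))
    (h : resDegree (algebraMap k K) ⊤ hk₁ ≤
      resDegree (algebraMap k K) V hk + compRank V ⊤ + 1) : DefLE k V 1 := by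
  have h0 : Algebra.trdeg k K ≤ resDegree (algebraMap k K) ⊤ hk₁ := by
    let _ : Algebra k (IsLocalRing.ResidueField (⊤ : ValuationSubring K)) :=
      ((IsLocalRing.residue (⊤ : ValuationSubring K)).comp
        ((algebraMap k K).codRestrict ⊤ hk₁)).toAlgebra
    let ψ : K →+* IsLocalRing.ResidueField (⊤ : ValuationSubring K) :=
      (IsLocalRing.residue (⊤ : ValuationSubring K)).comp
        ((RingHom.id K).codRestrict (⊤ : ValuationSubring K).toSubring
          (fun x => ValuationSubring.mem_top x))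
    let φ : K →ₐ[k] IsLocalRing.ResidueField (⊤ : ValuationSubring K) :=
      { ψ with commutes' := fun c => rfl }
    exact _root_.trdeg_le_of_injective φ ψ.injective
  have h' : Algebra.trdeg k K ≤
      compRank V ⊤ + resDegree (algebraMap k K) V hk + ((1 : ℕ) : Cardinal) := by
    rw [add_comm (compRank V ⊤), Nat.cast_one]
    exact h0.trans h
  obtain ⟨r, d, hr, hd, hT⟩ := exists_nat_split hfin h'
  obtain ⟨x, -, hx⟩ := exists_units V ⊤ hr
  obtain ⟨z, hz⟩ := exists_indRes' V hk hd
  exact ⟨r, d, hT, ⟨x, hx⟩, ⟨z, hz⟩⟩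

theorem isR1_of_covers {V : ValuationSubring K} (h : Covers V ⊤) : IsR1 V :=
  ⟨h.1.ne, fun W hW => h.2 W hW le_top⟩

/-- The components of a valuation ring with a dense subfield all of whose components have defect at
most one are good. -/
theorem allGood_of_dense (hreal : RealCaseR k) (hK : (⊤ : IntermediateField k K).FG)
    (V : ValuationSubring K) (hkV : ∀ c : k, algebraMap k K c ∈ V) (F : IntermediateField k K)
    (hF : F.FG) (hdense : ∀ a b : K, b ≠ 0 → ∃ c ∈ F, V.valuation (a - c) < V.valuation b)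
    (s : Finset K) (hs : AlgebraicIndependent F (Subtype.val : s → K))
    (hsep : Algebra.IsSeparable (IntermediateField.adjoin F (s : Set K)) K)
    (hdef : ComponentDefectsLEOne (algebraMap k F) (V.comap (algebraMap F K))) :
    AllGood k V := by
  have hFtop : (⊤ : IntermediateField k F).FG := by
    rw [← IntermediateField.essFiniteType_iff] at hF
    rw [IntermediateField.fg_top_iff]
    exact hF
  have h2 : Algebra.EssFiniteType k K := IntermediateField.fg_top_iff.1 hK
  have h3 : Algebra.EssFiniteType k F := IntermediateField.fg_top_iff.1 hFtop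
  have hfin : Algebra.trdeg k K < Cardinal.aleph0 := trdeg_lt_aleph0 k K
  have hfinF : Algebra.trdeg k F < Cardinal.aleph0 := trdeg_lt_aleph0 k F
  have hd : DenseIn V (algebraMap F K) := by
    intro a b hb
    obtain ⟨c, hc, hc'⟩ := hdense a b hb
    exact ⟨⟨c, hc⟩, hc'⟩
  intro V₂ V₁ hle hcov
  have hne₂ : V₂ ≠ ⊤ := fun h => (lt_of_lt_of_le hcov.1 le_top).ne h
  have hd₂ : DenseIn V₂ (algebraMap F K) := DenseIn.of_le hle hd hne₂
  have hcovF : Covers (V₂.comap (algebraMap F K)) (V₁.comap (algebraMap F K)) :=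
    Covers.comap hd hle hcov
  obtain ⟨hkW₂, hkW₁, hdeg⟩ := hdef (V₂.comap (algebraMap F K)) (V₁.comap (algebraMap F K))
    (fun x hx => by
      rw [ValuationSubring.mem_comap] at hx ⊢
      exact hle hx) hcovF.covBy
  have hk₂ : ∀ c : k, algebraMap k K c ∈ V₂ := fun c => hle (hkV c)
  have hk₁ : ∀ c : k, algebraMap k K c ∈ V₁ := fun c => hcov.1.le (hk₂ c)
  have hm₂ : ∀ x : F, x ∈ V₂.comap (algebraMap F K) ↔ algebraMap F K x ∈ V₂ := fun x =>
    ValuationSubring.mem_comap
  have hm₁ : ∀ x : F, x ∈ V₁.comap (algebraMap F K) ↔ algebraMap F K x ∈ V₁ := fun x =>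
    ValuationSubring.mem_comap
  by_cases hne : V₁ = ⊤
  · subst hne
    have htop : (⊤ : ValuationSubring K).comap (algebraMap F K) = ⊤ := by
      rw [eq_top_iff]
      intro x _
      rw [ValuationSubring.mem_comap]
      exact ValuationSubring.mem_top _
    refine compGood_top hK hk₂ ?_
    have hcovF' : Covers (V₂.comap (algebraMap F K)) ⊤ := htop ▸ hcovF
    have hdeg' : ∀ U : ValuationSubring F, U = ⊤ → ∀ hU : ∀ c : k, algebraMap k F c ∈ U,
        resDegree (algebraMap k F) U hU ≤ resDegree (algebraMap k F)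
          (V₂.comap (algebraMap F K)) hkW₂ + compRank (V₂.comap (algebraMap F K)) U + 1 →
        DefLE k (V₂.comap (algebraMap F K)) 1 := by
      rintro U rfl hU h
      exact defLE_of hfinF hkW₂ hU h
    have hLU : LUr k (V₂.comap (algebraMap F K)) :=
      hreal F hFtop _ hkW₂ (isR1_of_covers hcovF') (hdeg' _ htop hkW₁ hdeg)
    rw [lur_iff] at hLU ⊢
    exact ascent (ascends_lur k) V₂ hd₂ (fgField_of_fg hFtop) (fgField_of_fg hK) s hs hsep hLU
  · refine compGood_of hreal hcov hfin (compLE_of hfin hcov.1.le hk₂ hk₁ ?_)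
    refine (resDegree_ge hm₁ hkW₁ hk₁ (DenseIn.of_le (hle.trans hcov.1.le) hd hne) hne).trans
      (hdeg.trans ?_)
    gcongr
    · exact resDegree_le V₂ _ hm₂ hkW₂ hk₂
    · exact compRank_le hm₂ hm₁

end Main

end Pool.Agent.LU2H
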