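import Pool.Agent.Lib.LU2G.CompDefs

/-!
# Valuation rings with a dense subfield all of whose rank one components have defect at most one
-/

namespace Pool.Agent.LU2H

open Pool.Agent.LU2G

/-- For an embedding of `k` in `K` and a valuation ring `V` of `K`: `K` contains a finitely
generated extension `F` of `k`, dense in `K` for the topology defined by `V`, such that `K` is
separably generated over `F` and all rank one components of the valuation ring `V ∩ F` of `F` have
Abhyankar defect at most one over `k`. -/
def DenseDefectsLEOne {k K : Type} [Field k] [Field K] (ι : k →+* K)
    (V : ValuationSubring K) : Prop :=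
  letI : Algebra k K := ι.toAlgebra
  ∃ F : IntermediateField k K, F.FG ∧
    (∀ a b : K, b ≠ 0 → ∃ c ∈ F, V.valuation (a - c) < V.valuation b) ∧
    (∃ s : Finset K, AlgebraicIndependent F (Subtype.val : s → K) ∧
      Algebra.IsSeparable (IntermediateField.adjoin F (s : Set K)) K) ∧
    ComponentDefectsLEOne (algebraMap k F) (V.comap (algebraMap F K))

end Pool.Agent.LU2H
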