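import Pool.Agent.Lib.LU2H.AllS
import Pool.Agent.Lib.LU2H.Dense3
import Pool.Agent.Lib.LU2H.Defs

/-!
# LU2H: the final theorem
-/

set_option autoImplicit false

open AlgebraicGeometry CategoryTheory

namespace Pool.Agent.LU2H

open Pool.Agent.LU2 Pool.Agent.LU2G
open Pool.Agent.LU1G (IsGen cpt incV SmoothAt factor_affine frac_affine)

/-- The function field is finitely generated. -/
theorem fg_functionField {k K : Type} [Field k] [Field K] [Algebra k K] {X : Scheme.{0}}
    [IsIntegral X] (f : X ⟶ Spec (CommRingCat.of k)) [LocallyOfFiniteType f]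
    (η : Spec (CommRingCat.of K) ⟶ X) (hη : IsGen η)
    (hηf : η ≫ f = Spec.map (CommRingCat.ofHom (algebraMap k K))) :
    (⊤ : IntermediateField k K).FG := by
  obtain ⟨U, hU, hxU, -⟩ := exists_isAffineOpen_mem_and_subset
    (x := genericPoint X) (U := ⊤) (Set.mem_univ _)
  have hne : Nonempty U := ⟨⟨_, hxU⟩⟩
  obtain ⟨φK, hφK⟩ := factor_affine U hU (R := K) η (by rw [IsGen.range hη]; exact hxU)
  let A : Type := Γ(X, U)
  let _ : CommRing A := inferInstanceAs (CommRing Γ(X, U))
  have : IsDomain A := inferInstanceAs (IsDomain Γ(X, U))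
  let φk : k →+* A := (Spec.preimage (hU.fromSpec ≫ f)).hom
  let _ : Algebra A K := φK.toAlgebra
  let _ : Algebra k A := φk.toAlgebra
  have hφk : Spec.map (CommRingCat.ofHom φk) = hU.fromSpec ≫ f := by
    rw [CommRingCat.ofHom_hom, Spec.map_preimage]
  have hft : Algebra.FiniteType k A := by
    have h1 : LocallyOfFiniteType (Spec.map (CommRingCat.ofHom φk)) := by
      rw [hφk]
      infer_instance
    exact (HasRingHomProperty.Spec_iff (P := @LocallyOfFiniteType)).mp h1
  have : IsScalarTower k A K := by
    refine IsScalarTower.of_algebraMap_eq' ?_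
    have h1 : Spec.map (CommRingCat.ofHom (algebraMap k K)) =
        Spec.map (CommRingCat.ofHom (φK.comp φk)) := by
      rw [← hηf, ← hφK, Category.assoc, ← hφk, ← Spec.map_comp]
      rfl
    exact congrArg CommRingCat.Hom.hom (Spec.map_injective h1)
  have : IsFractionRing A K := frac_affine U hU ⟨_, hxU⟩ η hη φK hφK
  have e1 : Algebra.EssFiniteType A K :=
    Algebra.EssFiniteType.of_isLocalization _ (nonZeroDivisors A)
  have e2 : Algebra.EssFiniteType k K := Algebra.EssFiniteType.comp k A K
  exact IntermediateField.fg_top_iff.2 e2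

/-- The final theorem. -/
theorem exists_smooth_centres (k : Type) [Field k] [PerfectField k] (hreal : RealCaseR k)
    (X : Scheme.{0}) [IsIntegral X] (f : X ⟶ Spec (CommRingCat.of k))
    [LocallyOfFiniteType f] (m : ℕ) (V : Fin m → ValuationSubring X.functionField)
    (hV : ∀ i, DenseDefectsLEOne (consts f) (V i))
    (c : ∀ i, Spec (CommRingCat.of (V i)) ⟶ X)
    (hc : ∀ i, Spec.map (CommRingCat.ofHom (algebraMap (V i) X.functionField)) ≫
      c i = X.fromSpecStalk (genericPoint X)) :
    ∃ (Y : Scheme.{0}) (π : Y ⟶ X), IsIntegral Y ∧ IsProper π ∧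
      (∀ W : X.Opens, (∀ (i : Fin m) (V' : ValuationSubring X.functionField) (h : V i ≤ V'),
        V' ≠ ⊤ → (coarser h ≫ c i) (IsLocalRing.closedPoint V') ∈ W →
          IsSmoothAt f ((coarser h ≫ c i) (IsLocalRing.closedPoint V'))) → IsIso (π ∣_ W)) ∧
      ∀ i, ∃ c' : Spec (CommRingCat.of (V i)) ⟶ Y, c' ≫ π = c i ∧
        IsSmoothAt (π ≫ f) (c' (IsLocalRing.closedPoint (V i))) := by
  letI : Algebra k X.functionField := (consts f).toAlgebra
  have hη : IsGen (K := X.functionField) (X.fromSpecStalk (genericPoint X)) := by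
    refine ⟨RingEquiv.refl _, ?_⟩
    have h1 : (CommRingCat.ofHom (RingEquiv.refl X.functionField).toRingHom) =
        𝟙 (CommRingCat.of X.functionField) := rfl
    rw [h1, Spec.map_id]
    exact (Category.id_comp _).symm
  have hηf : X.fromSpecStalk (genericPoint X) ≫ f =
      Spec.map (CommRingCat.ofHom (algebraMap k X.functionField)) := by
    have h1 : CommRingCat.ofHom (algebraMap k X.functionField) =
        Spec.preimage (X.fromSpecStalk (genericPoint X) ≫ f) := rfl
    rw [h1, Spec.map_preimage]
  have hK : (⊤ : IntermediateField k X.functionField).FG :=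
    fg_functionField (K := X.functionField) f (X.fromSpecStalk (genericPoint X)) hη hηf
  refine all_steps k X.functionField m X f (X.fromSpecStalk (genericPoint X)) hη hηf V
    (fun i => ?_) c hc
  obtain ⟨F, hF, hdense, ⟨s, hs, hsep⟩, hdef⟩ := hV i
  exact allGood_of_dense hreal hK (V i)
    (const_mem f (X.fromSpecStalk (genericPoint X)) hηf (V i) (c i) (hc i)) F hF hdense s hs hsep
    hdef

end Pool.Agent.LU2H
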