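import Pool.Agent.Lib.LU2H.ChainS
import Pool.Agent.Lib.LU2G.Defs

/-!
# LU2H: finitely many valuation rings
-/

set_option autoImplicit false

open AlgebraicGeometry CategoryTheory

namespace Pool.Agent.LU2H

open Pool.Agent.LU2 Pool.Agent.LU2G
open Pool.Agent.LU1G (IsGen cpt incV SmoothAt lift_of_proper smoothAt_of_iso isIso_restrict_comp
  lift_of_iso)

/-- Finitely many valuation rings all of whose components are good. -/
theorem all_steps (k K : Type) [Field k] [PerfectField k] [Field K]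
    [Algebra k K] (m : ℕ) :
    ∀ (X : Scheme.{0}) [IsIntegral X] (f : X ⟶ Spec (CommRingCat.of k))
    [LocallyOfFiniteType f] (η : Spec (CommRingCat.of K) ⟶ X) (_ : IsGen η)
    (_ : η ≫ f = Spec.map (CommRingCat.ofHom (algebraMap k K)))
    (V : Fin m → ValuationSubring K) (_ : ∀ i, AllGood k (V i))
    (c : ∀ i, Spec (CommRingCat.of (V i)) ⟶ X) (_ : ∀ i, incV (V i) ≫ c i = η),
    ∃ (Y : Scheme.{0}) (π : Y ⟶ X), IsIntegral Y ∧ IsProper π ∧
      (∀ U : X.Opens, (∀ (i : Fin m) (V' : ValuationSubring K) (h : V i ≤ V'), V' ≠ ⊤ →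
        (coarse h ≫ c i) (cpt V') ∈ U → SmoothAt f ((coarse h ≫ c i) (cpt V'))) →
          IsIso (π ∣_ U)) ∧
      ∀ i, ∃ c' : Spec (CommRingCat.of (V i)) ⟶ Y,
        c' ≫ π = c i ∧ SmoothAt (π ≫ f) (c' (cpt (V i))) := by
  induction m with
  | zero =>
    intro X _ f _ η hη hηf V hgood c hc
    exact ⟨X, 𝟙 X, inferInstance, inferInstance, fun U _ => inferInstance, fun i => i.elim0⟩
  | succ m ih =>
    intro X _ f _ η hη hηf V hgood c hc
    obtain ⟨Y₁, π₁, hY₁, hπ₁, hiso₁, c₁, hc₁, hs₁⟩ := unif_of_good k K X f η hη hηf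
      (V (Fin.last m)) (hgood _) (c (Fin.last m)) (hc _)
    obtain ⟨W₀, hW₀, hW₀s⟩ := smoothAt_generic k X f
    have hisoW₀ : IsIso (π₁ ∣_ W₀) := hiso₁ W₀ fun _ _ _ hm => ⟨W₀, hm, hW₀s⟩
    obtain ⟨η₁, hη₁, hη₁g⟩ := IsGen.lift π₁ W₀ hW₀ hisoW₀ η hη
    have hη₁f : η₁ ≫ π₁ ≫ f = Spec.map (CommRingCat.ofHom (algebraMap k K)) := by
      rw [← Category.assoc, hη₁, hηf]
    have hlift : ∀ i : Fin m, ∃ c' : Spec (CommRingCat.of (V i.castSucc)) ⟶ Y₁,
        c' ≫ π₁ = c i.castSucc ∧ incV (V i.castSucc) ≫ c' = η₁ := fun i =>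
      lift_of_proper π₁ (V i.castSucc) (c i.castSucc) η₁ (by rw [hc, hη₁])
    choose d hd hd' using hlift
    obtain ⟨Y₂, π₂, hY₂, hπ₂, hiso₂, hlift₂⟩ := ih Y₁ (π₁ ≫ f) η₁ hη₁g hη₁f
      (fun i => V i.castSucc) (fun i => hgood _) d hd'
    refine ⟨Y₂, π₂ ≫ π₁, hY₂, inferInstance, fun U hU => ?_, fun i => ?_⟩
    · have h1 : IsIso (π₁ ∣_ U) := hiso₁ U (hU (Fin.last m))
      refine isIso_restrict_comp π₂ π₁ U h1 (hiso₂ _ fun i V' h hne hmem => ?_)
      have e1 : π₁ ((coarse h ≫ d i) (cpt V')) = (coarse h ≫ c i.castSucc) (cpt V') := by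
        rw [← hd i]
        rfl
      have hmem' : π₁ ((coarse h ≫ d i) (cpt V')) ∈ U := hmem
      refine smoothAt_of_iso π₁ f _ U h1 hmem' ?_
      rw [e1] at hmem' ⊢
      exact hU i.castSucc V' h hne hmem'
    · refine Fin.lastCases ?_ (fun j => ?_) i
      · obtain ⟨U, hU, hUs⟩ := hs₁
        have h1 : IsIso (π₂ ∣_ U) := hiso₂ U fun _ _ _ _ hm => ⟨U, hm, hUs⟩
        obtain ⟨c₂, hc₂, hs₂⟩ := lift_of_iso π₂ (π₁ ≫ f) (V (Fin.last m)) c₁ U hU h1 hUs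
        refine ⟨c₂, ?_, ?_⟩
        · rw [← Category.assoc, hc₂, hc₁]
        · rw [Category.assoc]
          exact hs₂
      · obtain ⟨c', hc', hs'⟩ := hlift₂ j
        refine ⟨c', ?_, ?_⟩
        · rw [← Category.assoc, hc', hd j]
        · rw [Category.assoc]
          exact hs'

end Pool.Agent.LU2H
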