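import Pool.Agent.Lib.LU2G.OpenS
import Pool.Agent.Lib.LU2H.Affine

/-!
# LU2H: the blowing up of an affine open neighbourhood of the centre
-/

set_option autoImplicit false

open AlgebraicGeometry CategoryTheory

namespace Pool.Agent.LU2H

open Pool.Agent.LU2 Pool.Agent.LU2G
open Pool.Agent.LU1G (IsGen cpt incV SmoothAt powFam factor_affine frac_affine)
open Pool.Agent.MP_b525bf_ag

/-- The blowing up of an affine open neighbourhood `U` of the centre. -/
theorem open_step (k K : Type) [Field k] [PerfectField k] [Field K]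
    [Algebra k K] (X : Scheme.{0}) [IsIntegral X] (f : X ⟶ Spec (CommRingCat.of k))
    [LocallyOfFiniteType f] (η : Spec (CommRingCat.of K) ⟶ X) (hη : IsGen η)
    (hηf : η ≫ f = Spec.map (CommRingCat.ofHom (algebraMap k K)))
    (V V₁ : ValuationSubring K) (hcov : Covers V V₁) (hgood : CompGood k V V₁)
    (c : Spec (CommRingCat.of V) ⟶ X) (hc : incV V ≫ c = η)
    (hsm : SmoothAt f ((coarse hcov.1.le ≫ c) (cpt V₁))) (U : X.Opens)
    (hU : IsAffineOpen U) (hcU : c (cpt V) ∈ U) :
    ∃ I : Ideal Γ(X, U), I ≠ ⊥ ∧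
      (∀ P : Spec Γ(X, U), I ≤ P.asIdeal → c (cpt V) ⤳ hU.fromSpec P) ∧
      ∃ c' : Spec (CommRingCat.of V) ⟶ (powFam I).Bl,
        c' ≫ (powFam I).blMap ≫ hU.fromSpec = c ∧
        SmoothAt ((powFam I).blMap ≫ hU.fromSpec ≫ f) (c' (cpt V)) := by
  obtain ⟨φ, hφ⟩ := factor_affine U hU c hcU
  have hne : Nonempty U := ⟨⟨_, hcU⟩⟩
  let A : Type := Γ(X, U)
  let _ : CommRing A := inferInstanceAs (CommRing Γ(X, U))
  have : IsDomain A := inferInstanceAs (IsDomain Γ(X, U))
  let φK : A →+* K := (algebraMap V K).comp φ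
  let φk : k →+* A := (Spec.preimage (hU.fromSpec ≫ f)).hom
  let _ : Algebra A K := φK.toAlgebra
  let _ : Algebra k A := φk.toAlgebra
  have hφK : Spec.map (CommRingCat.ofHom φK) ≫ hU.fromSpec = η := by
    rw [← hc, ← hφ, incV, ← Category.assoc, ← Spec.map_comp]
    rfl
  have hφk : Spec.map (CommRingCat.ofHom φk) = hU.fromSpec ≫ f := by
    rw [CommRingCat.ofHom_hom, Spec.map_preimage]
  have hft : Algebra.FiniteType k A := by
    have h1 : LocallyOfFiniteType (Spec.map (CommRingCat.ofHom φk)) := by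
      rw [hφk]
      infer_instance
    exact (HasRingHomProperty.Spec_iff (P := @LocallyOfFiniteType)).mp h1
  have : IsScalarTower k A K := by
    refine IsScalarTower.of_algebraMap_eq' ?_
    have h1 : Spec.map (CommRingCat.ofHom (algebraMap k K)) =
        Spec.map (CommRingCat.ofHom (φK.comp φk)) := by
      rw [← hηf, ← hφK, Category.assoc, ← hφk, ← Spec.map_comp]
      rfl
    exact congrArg CommRingCat.Hom.hom (Spec.map_injective h1)
  have : IsFractionRing A K := frac_affine U hU ⟨_, hcU⟩ η hη φK hφK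
  have hAV : ∀ a : A, algebraMap A K a ∈ V := fun a => (φ a).2
  -- a smooth basic open neighbourhood of the centre of `V₁`
  have hsm' : ∃ b : A, V₁.valuation (algebraMap A K b) = 1 ∧
      Algebra.Smooth k (Localization.Away b) := by
    let p : Spec (CommRingCat.of A) :=
      Spec.map (CommRingCat.ofHom φ) (coarse hcov.1.le (cpt V₁))
    have hp : hU.fromSpec p = (coarse hcov.1.le ≫ c) (cpt V₁) := by
      rw [← hφ]
      rfl
    obtain ⟨b, hb, hbs⟩ := exists_smooth_away f A hU.fromSpec hφk.symm p (by rw [hp]; exact hsm)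
    refine ⟨b, ?_, hbs⟩
    have h1 : ValuationSubring.inclusion V V₁ hcov.1.le (φ b) ∉
        IsLocalRing.maximalIdeal V₁ := hb
    have h2 : V₁.valuation (algebraMap A K b) ≤ 1 :=
      (V₁.valuation_le_one_iff _).2 (hcov.1.le (hAV b))
    refine le_antisymm h2 (not_lt.1 fun h3 => h1 ?_)
    exact (V₁.valuation_lt_one_iff _).2 h3
  obtain ⟨I, hI, hprime, c', hc', hsm⟩ := Pool.Agent.LU2H.affine_step k A K V V₁ hcov hAV
    hgood hsm'
  have hcod : (algebraMap A K).codRestrict V hAV = φ := by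
    ext a
    rfl
  rw [hcod] at hprime hc'
  refine ⟨I, hI, ?_, c', ?_, ?_⟩
  · intro P hP
    have h1 := (hprime P hP).map hU.fromSpec.continuous
    have h2 : hU.fromSpec (Spec.map (CommRingCat.ofHom φ) (cpt V)) = c (cpt V) := by
      rw [← hφ]
      rfl
    rw [← h2]
    exact h1
  · rw [← hφ, ← hc', Category.assoc]
  · have e2 : (powFam I).blMap ≫ hU.fromSpec ≫ f =
        (powFam I).blMap ≫ Spec.map (CommRingCat.ofHom (algebraMap k A)) :=
      congrArg (fun g => (powFam I).blMap ≫ g) hφk.symm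
    rw [e2]
    exact hsm

end Pool.Agent.LU2H
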