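import Pool.Agent.Lib.LU2G.OneS
import Pool.Agent.Lib.LU2H.OpenS

/-!
# LU2H: one valuation ring on an arbitrary scheme
-/

set_option autoImplicit false

open AlgebraicGeometry CategoryTheory

namespace Pool.Agent.LU2H

open Pool.Agent.LU2 Pool.Agent.LU2G Pool.Agent.MP_b525bf_ag
open Pool.Agent.LU1G (IsGen cpt incV SmoothAt powFam smoothAt_of_open)

/-- One valuation. -/
theorem one_step (k K : Type) [Field k] [PerfectField k] [Field K]
    [Algebra k K] (X : Scheme.{0}) [IsIntegral X] (f : X ⟶ Spec (CommRingCat.of k))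
    [LocallyOfFiniteType f] (η : Spec (CommRingCat.of K) ⟶ X) (hη : IsGen η)
    (hηf : η ≫ f = Spec.map (CommRingCat.ofHom (algebraMap k K)))
    (V V₁ : ValuationSubring K) (hcov : Covers V V₁) (hgood : CompGood k V V₁)
    (c : Spec (CommRingCat.of V) ⟶ X) (hc : incV V ≫ c = η)
    (hsm : SmoothAt f ((coarse hcov.1.le ≫ c) (cpt V₁))) :
    ∃ (Y : Scheme.{0}) (π : Y ⟶ X), IsIntegral Y ∧ IsProper π ∧
      (∀ W : X.Opens, c (cpt V) ∉ W → IsIso (π ∣_ W)) ∧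
      ∃ c' : Spec (CommRingCat.of V) ⟶ Y, c' ≫ π = c ∧ SmoothAt (π ≫ f) (c' (cpt V)) := by
  have hLN : IsLocallyNoetherian X := LocallyOfFiniteType.isLocallyNoetherian f
  obtain ⟨U, hU, hcU, -⟩ := exists_isAffineOpen_mem_and_subset (U := ⊤) (x := c (cpt V)) trivial
  obtain ⟨I, hI0, hIV, hstep⟩ := Pool.Agent.LU2H.open_step k K X f η hη hηf V V₁ hcov
    hgood c hc hsm U hU hcU
  have hN : IsNoetherianRing Γ(X, U) := IsLocallyNoetherian.component_noetherian ⟨U, hU⟩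
  obtain ⟨𝓘, hIU, hIW⟩ := exists_idealSheaf hU I
  rw [← hIU] at hstep hI0
  obtain ⟨c', hc', hsm'⟩ := hstep
  let U₀ : X.AffineZariskiSite := ⟨U, hU⟩
  have hb : blowι 𝓘 U₀ ≫ blow 𝓘 = (powFam (𝓘.ideal ⟨U, hU⟩)).blMap ≫ hU.fromSpec :=
    blowι_blow 𝓘 U₀
  let c'' : Spec (CommRingCat.of V) ⟶ (fam 𝓘 U₀).Bl := c'
  refine ⟨Blow 𝓘, blow 𝓘, blow_isIntegral 𝓘 U₀ hI0, blow_isProper 𝓘, ?_,
    c'' ≫ blowι 𝓘 U₀, ?_, ?_⟩
  · intro W hW
    refine blow_isIso 𝓘 W fun x hx => ?_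
    obtain ⟨U', hU', hxU', hU'W⟩ := exists_isAffineOpen_mem_and_subset hx
    refine ⟨⟨U', hU'⟩, hxU', hIW ⟨U', hU'⟩ fun P hP hPU => ?_⟩
    exact hW ((hIV P hP).mem_open W.isOpen (hU'W hPU))
  · rw [Category.assoc, hb]
    exact hc'
  · rw [Scheme.Hom.comp_apply]
    refine smoothAt_of_open (blowι 𝓘 U₀) _ _ ?_
    have e2 : blowι 𝓘 U₀ ≫ blow 𝓘 ≫ f =
        (powFam (𝓘.ideal ⟨U, hU⟩)).blMap ≫ hU.fromSpec ≫ f :=
      (Category.assoc _ _ _).symm.trans ((congrArg (fun z => z ≫ f) hb).trans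
        (Category.assoc _ _ _))
    exact e2 ▸ hsm'

end Pool.Agent.LU2H
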