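import Pool.Agent.Lib.LU2G.ChainS
import Pool.Agent.Lib.LU2H.OneS

/-!
# LU2H: one valuation ring of arbitrary rank
-/

set_option autoImplicit false

open AlgebraicGeometry CategoryTheory

namespace Pool.Agent.LU2H

open Pool.Agent.LU2 Pool.Agent.LU2G
open Pool.Agent.LU1G (IsGen cpt incV SmoothAt lift_of_proper smoothAt_of_iso isIso_restrict_comp
  factor_affine frac_affine lift_of_iso)

theorem unif_step (k K : Type) [Field k] [PerfectField k] [Field K]
    [Algebra k K] (X : Scheme.{0}) [IsIntegral X] (f : X ⟶ Spec (CommRingCat.of k))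
    [LocallyOfFiniteType f] (η : Spec (CommRingCat.of K) ⟶ X) (hη : IsGen η)
    (hηf : η ≫ f = Spec.map (CommRingCat.ofHom (algebraMap k K)))
    (V V₁ : ValuationSubring K) (hcovV : Covers V V₁) (hgood : CompGood k V V₁)
    (c : Spec (CommRingCat.of V) ⟶ X) (hc : incV V ≫ c = η)
    (h₁ : Unif f V₁ (coarse hcovV.1.le ≫ c)) : Unif f V c := by
  have hle : V ≤ V₁ := hcovV.1.le
  have hVne : V ≠ ⊤ := fun h => (lt_of_lt_of_le hcovV.1 le_top).ne h
  obtain ⟨Y₁, π₁, hY₁, hπ₁, hiso₁, c₁, hc₁, hs₁⟩ := h₁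
  obtain ⟨W₀, hW₀, hW₀s⟩ := smoothAt_generic k X f
  have hisoW₀ : IsIso (π₁ ∣_ W₀) := hiso₁ W₀ fun _ _ _ hm => ⟨W₀, hm, hW₀s⟩
  obtain ⟨η₁, hη₁, hη₁g⟩ := IsGen.lift π₁ W₀ hW₀ hisoW₀ η hη
  have hη₁f : η₁ ≫ π₁ ≫ f = Spec.map (CommRingCat.ofHom (algebraMap k K)) := by
    rw [← Category.assoc, hη₁, hηf]
  obtain ⟨c₂, hc₂, hc₂'⟩ := lift_of_proper π₁ V c η₁ (by rw [hc, hη₁])
  have hinc : incV V₁ ≫ coarse hle ≫ c = η := by
    rw [← Category.assoc]
    exact (congrArg (fun t => t ≫ c) (inc_coarse hle)).trans hc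
  have hinc₁ : incV V₁ ≫ c₁ = η₁ := by
    refine gen_unique π₁ W₀ hW₀ hisoW₀ _ _ ?_ ?_
    · rw [Category.assoc, hc₁, hinc]
      exact hη
    · rw [Category.assoc, hc₁, hη₁]
      exact hinc
  have hcc : coarse hle ≫ c₂ = c₁ := by
    refine lift_unique π₁ V₁ _ _ ?_ ?_
    · rw [Category.assoc, hc₂, hc₁]
    · rw [hinc₁, ← hc₂', ← Category.assoc]
      exact congrArg (fun t => t ≫ c₂) (inc_coarse hle)
  have hiso₁' : ∀ U : X.Opens, (∀ (V' : ValuationSubring K) (h : V ≤ V'), V' ≠ ⊤ →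
      (coarse h ≫ c) (cpt V') ∈ U → SmoothAt f ((coarse h ≫ c) (cpt V'))) →
        IsIso (π₁ ∣_ U) := by
    intro U hU
    refine hiso₁ U fun V' h hne hmem => ?_
    have e1 : coarse h ≫ coarse hle ≫ c = coarse (hle.trans h) ≫ c := by
      rw [← Category.assoc]
      exact congrArg (fun t => t ≫ c) (coarse_coarse hle h (hle.trans h))
    rw [e1] at hmem ⊢
    exact hU V' (hle.trans h) hne hmem
  by_cases hsm : SmoothAt (π₁ ≫ f) (c₂ (cpt V))
  · exact ⟨Y₁, π₁, hY₁, hπ₁, hiso₁', c₂, hc₂, hsm⟩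
  · obtain ⟨Y₂, π₂, hY₂, hπ₂, hiso₂, c₃, hc₃, hs₃⟩ := Pool.Agent.LU2H.one_step k K Y₁ (π₁ ≫ f) η₁ hη₁g
      hη₁f V V₁ hcovV hgood c₂ hc₂' (by rw [hcc]; exact hs₁)
    refine ⟨Y₂, π₂ ≫ π₁, hY₂, inferInstance, fun U hU => ?_, c₃, ?_, ?_⟩
    · refine isIso_restrict_comp π₂ π₁ U (hiso₁' U hU) (hiso₂ _ fun hmem => hsm ?_)
      have hmem' : π₁ (c₂ (cpt V)) ∈ U := hmem
      have heq : π₁ (c₂ (cpt V)) = c (cpt V) := by rw [← hc₂]; rfl
      have e3 : (coarse (le_refl V) ≫ c) (cpt V) = c (cpt V) := by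
        rw [coarse_refl, Category.id_comp]
      refine smoothAt_of_iso π₁ f _ U (hiso₁' U hU) hmem' ?_
      rw [heq, ← e3]
      refine hU V le_rfl hVne ?_
      rw [e3, ← heq]
      exact hmem'
    · rw [← Category.assoc, hc₃, hc₂]
    · rw [Category.assoc]
      exact hs₃

/-- One valuation ring of arbitrary rank. -/
theorem chain_steps (k K : Type) [Field k] [PerfectField k] [Field K]
    [Algebra k K] (X : Scheme.{0}) [IsIntegral X] (f : X ⟶ Spec (CommRingCat.of k))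
    [LocallyOfFiniteType f] (η : Spec (CommRingCat.of K) ⟶ X) (hη : IsGen η)
    (hηf : η ≫ f = Spec.map (CommRingCat.ofHom (algebraMap k K))) (n : ℕ) :
    ∀ (W : Fin (n + 1) → ValuationSubring K), W 0 = ⊤ →
      (∀ i : Fin n, Covers (W i.succ) (W i.castSucc)) →
      AllGood k (W (Fin.last n)) → ∀ c : Spec (CommRingCat.of (W (Fin.last n))) ⟶ X,
      incV (W (Fin.last n)) ≫ c = η → Unif f (W (Fin.last n)) c := by
  induction n with
  | zero =>
    intro W hW0 _ _ c hc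
    refine ⟨X, 𝟙 X, inferInstance, inferInstance, fun U _ => inferInstance, c,
      Category.comp_id _, ?_⟩
    rw [Category.id_comp, centre_top η hη (W (Fin.last 0)) hW0 c hc]
    exact smoothAt_generic k X f
  | succ n ih =>
    intro W hW0 hcov hgood c hc
    have hcovV : Covers (W (Fin.last (n + 1))) (W (Fin.last n).castSucc) := hcov (Fin.last n)
    refine unif_step k K X f η hη hηf (W (Fin.last (n + 1))) (W (Fin.last n).castSucc)
      hcovV (hgood _ _ le_rfl hcovV) c hc ?_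
    refine ih (fun i => W i.castSucc) hW0 (fun i => hcov i.castSucc)
      (hgood.of_le hcovV.1.le) (coarse hcovV.1.le ≫ c) ?_
    rw [← Category.assoc]
    exact (congrArg (fun t => t ≫ c) (inc_coarse hcovV.1.le)).trans hc

/-- One valuation ring. -/
theorem unif_of_good (k K : Type) [Field k] [PerfectField k] [Field K]
    [Algebra k K] (X : Scheme.{0}) [IsIntegral X] (f : X ⟶ Spec (CommRingCat.of k))
    [LocallyOfFiniteType f] (η : Spec (CommRingCat.of K) ⟶ X) (hη : IsGen η)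
    (hηf : η ≫ f = Spec.map (CommRingCat.ofHom (algebraMap k K)))
    (V : ValuationSubring K) (hgood : AllGood k V) (c : Spec (CommRingCat.of V) ⟶ X)
    (hc : incV V ≫ c = η) : Unif f V c := by
  by_cases hV : V = ⊤
  · refine ⟨X, 𝟙 X, inferInstance, inferInstance, fun U _ => inferInstance, c,
      Category.comp_id _, ?_⟩
    rw [Category.id_comp, centre_top η hη V hV c hc]
    exact smoothAt_generic k X f
  · have hk : ∀ a : k, algebraMap k K a ∈ V := const_mem f η hηf V c hc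
    obtain ⟨n, W, hW0, hWn, hcov⟩ := exists_chain hk hV (trdeg_lt f η hη hηf)
    subst hWn
    exact Pool.Agent.LU2H.chain_steps k K X f η hη hηf n W hW0 hcov hgood c hc

end Pool.Agent.LU2H
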