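import Pool.Agent.Lib.LU2G.StepAux
import Pool.Agent.Lib.LUC.Asc7

/-!
# LU2H: the coarsenings of a valuation ring and of its restriction to a dense subfield
-/

set_option autoImplicit false

namespace Pool.Agent.LU2H

open Pool.Agent.LU2 Pool.Agent.LU2G
open Pool.Agent.LUC (DenseIn ext_le ext_lt ext_eq_one ext_lt_one)

universe u

variable {K : Type u} [Field K]

/-- If `V₁` covers `V`, it is generated over `V` by any of its elements that is not in `V`. -/
theorem covers_arch {V V₁ : ValuationSubring K} (hcov : Covers V V₁) {c d : K} (hc : c ∉ V)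
    (hc₁ : c ∈ V₁) (hd : d ∈ V₁) : ∃ n : ℕ, d / c ^ n ∈ V := by
  have hc0 : c ≠ 0 := by
    rintro rfl
    exact hc V.zero_mem
  have hci : c⁻¹ ∈ V := (V.mem_or_inv_mem c).resolve_left hc
  let W : ValuationSubring K :=
    { carrier := {x | ∃ n : ℕ, x / c ^ n ∈ V}
      mul_mem' := by
        rintro a b ⟨n, hn⟩ ⟨m, hm⟩
        refine ⟨n + m, ?_⟩
        rw [pow_add, ← div_mul_div_comm]
        exact V.mul_mem _ _ hn hm
      one_mem' := ⟨0, by rw [pow_zero, div_one]; exact V.one_mem⟩
      add_mem' := by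
        rintro a b ⟨n, hn⟩ ⟨m, hm⟩
        refine ⟨n + m, ?_⟩
        have h1 : (a + b) / c ^ (n + m) = a / c ^ n * c⁻¹ ^ m + b / c ^ m * c⁻¹ ^ n := by
          rw [pow_add, inv_pow, inv_pow]
          field_simp
        rw [h1]
        exact V.add_mem _ _ (V.mul_mem _ _ hn (V.toSubring.pow_mem hci m))
          (V.mul_mem _ _ hm (V.toSubring.pow_mem hci n))
      zero_mem' := ⟨0, by rw [zero_div]; exact V.zero_mem⟩
      neg_mem' := by
        rintro a ⟨n, hn⟩
        refine ⟨n, ?_⟩
        rw [neg_div]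
        exact V.neg_mem _ hn
      mem_or_inv_mem' := by
        intro x
        rcases V.mem_or_inv_mem x with h | h
        · exact Or.inl ⟨0, by rw [pow_zero, div_one]; exact h⟩
        · exact Or.inr ⟨0, by rw [pow_zero, div_one]; exact h⟩ }
  have hmem : ∀ x, x ∈ W ↔ ∃ n : ℕ, x / c ^ n ∈ V := fun _ => Iff.rfl
  have hVW : V ≤ W := fun x hx => (hmem x).2 ⟨0, by rw [pow_zero, div_one]; exact hx⟩
  have hWV₁ : W ≤ V₁ := by
    intro x hx
    obtain ⟨n, hn⟩ := (hmem x).1 hx
    have h1 : x = x / c ^ n * c ^ n := (div_mul_cancel₀ _ (pow_ne_zero n hc0)).symm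
    rw [h1]
    exact V₁.mul_mem _ _ (hcov.1.le hn) (V₁.toSubring.pow_mem hc₁ n)
  have hcW : c ∈ W := (hmem c).2 ⟨1, by rw [pow_one, div_self hc0]; exact V.one_mem⟩
  rcases hcov.2 W hVW hWV₁ with h | h
  · rw [h] at hcW
    exact absurd hcW hc
  · rw [← h] at hd
    exact (hmem d).1 hd

variable {F : Type u} [Field F] [Algebra F K]

omit [Algebra F K] in
/-- A subfield that is dense for `V` is dense for the coarser valuation rings. -/
theorem DenseIn.of_le {V V₂ : ValuationSubring K} (hle : V ≤ V₂) {j : F →+* K} (h : DenseIn V j)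
    (hne : V₂ ≠ ⊤) : DenseIn V₂ j := by
  intro a b hb
  obtain ⟨y, hy⟩ : ∃ y, y ∉ V₂ := by
    by_contra h1
    push Not at h1
    exact hne (top_le_iff.1 fun x _ => h1 x)
  have hy0 : y ≠ 0 := by
    rintro rfl
    exact hy V₂.zero_mem
  obtain ⟨c, hc⟩ := h a (b * y⁻¹) (mul_ne_zero hb (inv_ne_zero hy0))
  refine ⟨c, ?_⟩
  have h1 : V₂.valuation (a - j c) ≤ V₂.valuation (b * y⁻¹) := by
    have h2 : V.valuation ((a - j c) / (b * y⁻¹)) ≤ 1 := by
      rw [map_div₀]
      exact div_le_one_of_le₀ hc.le zero_le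
    have h3 : V₂.valuation ((a - j c) / (b * y⁻¹)) ≤ 1 :=
      (V₂.valuation_le_one_iff _).2 (hle ((V.valuation_le_one_iff _).1 h2))
    rwa [map_div₀, div_le_one₀ (zero_lt_iff.2 ((Valuation.ne_zero_iff _).2
      (mul_ne_zero hb (inv_ne_zero hy0))))] at h3
  refine h1.trans_lt ?_
  rw [map_mul]
  refine mul_lt_of_lt_one_right (zero_lt_iff.2 ((Valuation.ne_zero_iff _).2 hb)) ?_
  rw [map_inv₀]
  refine inv_lt_one_of_one_lt₀ ?_
  rw [← not_le, V₂.valuation_le_one_iff]
  exact hy

/-- The restriction to a dense subfield preserves coverings. -/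
theorem Covers.comap {V V₂ V₁ : ValuationSubring K} (h : DenseIn V (algebraMap F K)) (hle : V ≤ V₂)
    (hcov : Covers V₂ V₁) :
    Covers (V₂.comap (algebraMap F K)) (V₁.comap (algebraMap F K)) := by
  have hex : ∃ x ∈ V₁, x ∉ V₂ := by
    by_contra h1
    push Not at h1
    exact hcov.1.not_ge h1
  obtain ⟨x, hx₁, hx₂⟩ := hex
  have hx0 : x ≠ 0 := by
    rintro rfl
    exact hx₂ V₂.zero_mem
  obtain ⟨c, -, hc⟩ := h.exists_eq hx0
  have hu : V.valuation (x / algebraMap F K c) = 1 := by
    rw [map_div₀, hc, div_self ((Valuation.ne_zero_iff _).2 hx0)]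
  have hu' : V.valuation (algebraMap F K c / x) = 1 := by
    rw [map_div₀, hc, div_self ((Valuation.ne_zero_iff _).2 hx0)]
  have hc0 : algebraMap F K c ≠ 0 := by
    intro h1
    rw [h1, div_zero, map_zero] at hu
    exact zero_ne_one hu
  have hc₁ : algebraMap F K c ∈ V₁ := by
    have h1 : algebraMap F K c = algebraMap F K c / x * x := (div_mul_cancel₀ _ hx0).symm
    rw [h1]
    exact V₁.mul_mem _ _ (hcov.1.le (hle ((V.valuation_le_one_iff _).1 hu'.le))) hx₁
  have hc₂ : algebraMap F K c ∉ V₂ := by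
    intro h1
    apply hx₂
    have h2 : x = x / algebraMap F K c * algebraMap F K c := (div_mul_cancel₀ _ hc0).symm
    rw [h2]
    exact V₂.mul_mem _ _ (hle ((V.valuation_le_one_iff _).1 hu.le)) h1
  refine ⟨lt_of_le_of_ne (fun y hy => ?_) fun heq => ?_, fun U h1 h2 => ?_⟩
  · rw [ValuationSubring.mem_comap] at hy ⊢
    exact hcov.1.le hy
  · have h3 : c ∈ V₁.comap (algebraMap F K) := ValuationSubring.mem_comap.2 hc₁
    rw [← heq, ValuationSubring.mem_comap] at h3
    exact hc₂ h3
  · by_cases h3 : U ≤ V₂.comap (algebraMap F K)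
    · exact Or.inl (le_antisymm h3 h1)
    · right
      refine le_antisymm h2 fun d hd => ?_
      have h4 : ∃ e ∈ U, e ∉ V₂.comap (algebraMap F K) := by
        by_contra h5
        push Not at h5
        exact h3 h5
      obtain ⟨e, heU, he⟩ := h4
      have he₁ := h2 heU
      rw [ValuationSubring.mem_comap] at he he₁ hd
      obtain ⟨n, hn⟩ := covers_arch hcov he he₁ hd
      have he0 : e ≠ 0 := by
        rintro rfl
        rw [map_zero] at he
        exact he V₂.zero_mem
      have h5 : d / e ^ n ∈ U := by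
        apply h1
        rw [ValuationSubring.mem_comap, map_div₀, map_pow]
        exact hn
      have h6 : d = d / e ^ n * e ^ n := (div_mul_cancel₀ _ (pow_ne_zero n he0)).symm
      rw [h6]
      exact U.mul_mem _ _ h5 (U.toSubring.pow_mem heU n)

end Pool.Agent.LU2H
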