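import Pool.Agent.Lib.LU2G.LocalStep
import Pool.Agent.Lib.LU2G.Comp

/-!
# LU2H: good components of a valuation ring, and the local step

A component of a valuation ring is good if all its restrictions to the residue fields of models are
log uniformizable with control of the supports.
-/

set_option autoImplicit false

namespace Pool.Agent.LU2H

open Pool.Agent.LU2 Pool.Agent.LU2G

universe u

section Defs

variable {K : Type u} [Field K]

/-- The component of `V` between `V` and `V₁` is log uniformizable, with control of the supports, on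
the residue fields at the center of `V₁` of the models of `K`. -/
def CompGood (k : Type u) [Field k] [Algebra k K] (V V₁ : ValuationSubring K) : Prop :=
  ∃ (K₁ : Type u) (_ : Field K₁) (_ : Algebra k K₁) (φ : V₁ →+* K₁) (V₂ : ValuationSubring K₁),
    IsRes (k := k) V V₁ φ V₂ ∧
      ∀ A : Subalgebra k K, A.FG → (∀ a ∈ A, a ∈ V) → IsFrac A →
        (∃ c ∈ A, V.valuation c < 1 ∧ V₁.valuation c = 1) →
          LUr k (V₂.comap (algebraMap (IntermediateField.adjoin k
            {c : K₁ | ∃ a : V₁, (a : K) ∈ A ∧ φ a = c}) K₁))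

/-- All rank one components of `V` are good. -/
def AllGood (k : Type u) [Field k] [Algebra k K] (V : ValuationSubring K) : Prop :=
  ∀ V₂ V₁ : ValuationSubring K, V ≤ V₂ → Covers V₂ V₁ → CompGood k V₂ V₁

variable {k : Type u} [Field k] [Algebra k K]

theorem AllGood.of_le {V V₁ : ValuationSubring K} (h : AllGood k V) (hle : V ≤ V₁) :
    AllGood k V₁ := fun _ _ h₂ hc => h _ _ (hle.trans h₂) hc

end Defs

variable {k K : Type u} [Field k] [Field K] [Algebra k K]

/-- The components of defect at most one are good. -/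
theorem compGood_of (hreal : RealCaseR k) {V V₁ : ValuationSubring K} (hcov : Covers V V₁)
    (hfin : Algebra.trdeg k K < Cardinal.aleph0) (hdef : CompLE k V V₁ 1) : CompGood k V V₁ := by
  classical
  obtain ⟨K₁, _, _, φ, V₂, hres, hD₂⟩ := hdef
  refine ⟨K₁, inferInstance, inferInstance, φ, V₂, hres, fun A hfg hA _ hc => ?_⟩
  have hk : ∀ c : k, algebraMap k K c ∈ V := fun c => hA _ (A.algebraMap_mem c)
  have hle : V ≤ V₁ := hcov.1.le
  obtain ⟨L, hL⟩ : ∃ L : IntermediateField k K₁, L = IntermediateField.adjoin k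
    {c : K₁ | ∃ a : V₁, (a : K) ∈ A ∧ φ a = c} := ⟨_, rfl⟩
  rw [← hL]
  have hLfg : L.FG := hL ▸ adjoin_res_fg hres hfg hA
  have hLtop : (⊤ : IntermediateField k L).FG := by
    rw [← IntermediateField.essFiniteType_iff] at hLfg
    rw [IntermediateField.fg_top_iff]
    exact hLfg
  obtain ⟨n, hn⟩ := Cardinal.lt_aleph0.1 hfin
  obtain ⟨n₁, hn₁, -⟩ := hres.trdeg_le hn (x := (Fin.elim0 : Fin 0 → K))
    ⟨fun i => i.elim0, fun e _ => Subsingleton.elim _ _⟩
  have hfin₁ : Algebra.trdeg k K₁ < Cardinal.aleph0 := by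
    rw [hn₁]
    exact Cardinal.natCast_lt_aleph0
  have hk₂ : ∀ c : k, algebraMap k K₁ c ∈ V₂ := hres.const₂
  refine hreal L hLtop _ ?_ (comap_isR1 hres hcov L ?_)
    (DefLE.comap' hk₂ hfin₁ L hD₂)
  · intro c
    rw [ValuationSubring.mem_comap]
    have h := hk₂ c
    rwa [IsScalarTower.algebraMap_apply k L K₁] at h
  · obtain ⟨c, hcA, hcV, hcV₁⟩ := hc
    have hcV₁' : c ∈ V₁ := hle (hA c hcA)
    have hcL : φ ⟨c, hcV₁'⟩ ∈ L :=
      hL ▸ IntermediateField.subset_adjoin _ _ ⟨⟨c, hcV₁'⟩, hcA, rfl⟩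
    have hc0 : φ ⟨c, hcV₁'⟩ ≠ 0 := (hres.ne_zero_iff _).2 hcV₁
    have hlt : V₂.valuation (φ ⟨c, hcV₁'⟩) < 1 := (hres.val_lt_iff _).2 hcV
    intro htop
    have h1 : (⟨φ ⟨c, hcV₁'⟩, hcL⟩ : L)⁻¹ ∈ V₂.comap (algebraMap L K₁) := by
      rw [htop]
      exact ValuationSubring.mem_top _
    rw [ValuationSubring.mem_comap, map_inv₀, ← V₂.valuation_le_one_iff, map_inv₀] at h1
    have h2 : V₂.valuation (φ ⟨c, hcV₁'⟩) ≠ 0 := (Valuation.ne_zero_iff _).2 hc0
    have h3 : V₂.valuation (φ ⟨c, hcV₁'⟩) * (V₂.valuation (φ ⟨c, hcV₁'⟩))⁻¹ < 1 :=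
      mul_lt_of_lt_of_le_one hlt h1
    rw [mul_inv_cancel₀ h2] at h3
    exact lt_irrefl _ h3

/-- The local step. -/
theorem local_step {V V₁ : ValuationSubring K} (hcov : Covers V V₁)
    (A : Subalgebra k K) (hfg : A.FG) (hA : ∀ a ∈ A, a ∈ V) (hfrac : IsFrac A)
    (hgood : CompGood k V V₁)
    (hreg : ∃ (m : ℕ) (z : Fin m → K), IsPar V₁ (locV V₁ A) z) : StepAt V A := by
  classical
  have hle : V ≤ V₁ := hcov.1.le
  obtain ⟨m, z, hz⟩ := hreg
  by_cases hc : ∃ c ∈ A, V.valuation c < 1 ∧ V₁.valuation c = 1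
  · obtain ⟨K₁, _, _, φ, V₂, hres, hL⟩ := hgood
    exact step_chart hres A hfg hA z hz _ rfl (hL A hfg hA hfrac hc) hc
  · push Not at hc
    have hc' : ∀ c ∈ A, V.valuation c < 1 → V₁.valuation c < 1 := fun c hcA hcV =>
      lt_of_le_of_ne ((V₁.valuation_le_one_iff c).2 (hle (hA c hcA))) (hc c hcA hcV)
    have hloc : locV V A = locV V₁ A := by
      apply le_antisymm
      · rintro f ⟨a, ha, b, hb, hb1, rfl⟩
        exact ⟨a, ha, b, hb, val_eq_one_of_le hle hb1, rfl⟩
      · rintro f ⟨a, ha, b, hb, hb1, rfl⟩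
        refine ⟨a, ha, b, hb, ?_, rfl⟩
        refine le_antisymm ((V.valuation_le_one_iff b).2 (hA b hb)) ?_
        by_contra h
        push Not at h
        exact (hc' b hb h).ne hb1
    refine ⟨A, 1, IsChart.refl V A, ⟨m, z, ?_⟩, ?_⟩
    · rw [← hloc] at hz
      refine ⟨hz.mem, hz.ne, fun i => val_lt_one_of_le hle (hz.pos i), ?_, hz.dim⟩
      intro f hf hf1
      refine hz.gen f hf ?_
      obtain ⟨a, ha, b, hb, hb1, rfl⟩ := hf
      rw [map_div₀, hb1, div_one] at hf1
      rw [map_div₀, val_eq_one_of_le hle hb1, div_one]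
      exact hc' a ha hf1
    · intro c _ _
      refine ⟨0, ?_⟩
      rw [pow_zero, div_one]
      exact Subalgebra.one_mem _

end Pool.Agent.LU2H
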