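import Pool.Agent.Lib.LU2H.Dense1
import Pool.Agent.Lib.LU2H.Good
import Pool.Agent.Lib.LU2G.CompOf

/-!
# LU2H: the invariants of a valuation ring and of its restriction to a dense subfield
-/

set_option autoImplicit false

namespace Pool.Agent.LU2H

open Pool.Agent.LU2 Pool.Agent.LU2G
open Pool.Agent.LUC (DenseIn ext_le ext_lt ext_eq_one ext_lt_one)

section

variable {k F K : Type} [Field k] [Field F] [Field K] [Algebra k F] [Algebra k K] [Algebra F K]
  [IsScalarTower k F K]

/-- The map of residue fields. -/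
noncomputable def resMap (V : ValuationSubring K) (W : ValuationSubring F)
    (hW : ∀ x : F, x ∈ W ↔ algebraMap F K x ∈ V) :
    IsLocalRing.ResidueField W →+* IsLocalRing.ResidueField V :=
  have : IsLocalHom (((algebraMap F K).comp W.subtype).codRestrict V.toSubring
      (fun x => (hW x).1 x.2) : W →+* V) := by
    refine ⟨fun x hx => ?_⟩
    have h1 : V.valuation (algebraMap F K x) = 1 := (V.valuation_eq_one_iff _).1 hx
    exact (W.valuation_eq_one_iff _).2 ((ext_eq_one hW _).2 h1)
  IsLocalRing.ResidueField.map (((algebraMap F K).comp W.subtype).codRestrict V.toSubring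
      (fun x => (hW x).1 x.2) : W →+* V)

theorem resMap_residue (V : ValuationSubring K) (W : ValuationSubring F)
    (hW : ∀ x : F, x ∈ W ↔ algebraMap F K x ∈ V) (x : W) :
    resMap V W hW (IsLocalRing.residue W x) =
      IsLocalRing.residue V ⟨algebraMap F K x, (hW x).1 x.2⟩ := rfl

theorem resDegree_le (V : ValuationSubring K) (W : ValuationSubring F)
    (hW : ∀ x : F, x ∈ W ↔ algebraMap F K x ∈ V) (hkW : ∀ c : k, algebraMap k F c ∈ W)
    (hkV : ∀ c : k, algebraMap k K c ∈ V) :
    resDegree (algebraMap k F) W hkW ≤ resDegree (algebraMap k K) V hkV := by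
  letI a₁ : Algebra k (IsLocalRing.ResidueField W) :=
    ((IsLocalRing.residue W).comp ((algebraMap k F).codRestrict W hkW)).toAlgebra
  letI a₂ : Algebra k (IsLocalRing.ResidueField V) :=
    ((IsLocalRing.residue V).comp ((algebraMap k K).codRestrict V hkV)).toAlgebra
  let φ : IsLocalRing.ResidueField W →ₐ[k] IsLocalRing.ResidueField V :=
    { resMap V W hW with
      commutes' := fun c => by
        change resMap V W hW (IsLocalRing.residue W ⟨algebraMap k F c, hkW c⟩) =
          IsLocalRing.residue V ⟨algebraMap k K c, hkV c⟩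
        rw [resMap_residue]
        congr 1
        exact Subtype.ext (IsScalarTower.algebraMap_apply k F K c).symm }
  exact _root_.trdeg_le_of_injective φ (resMap V W hW).injective

theorem resDegree_ge {V : ValuationSubring K} {W : ValuationSubring F}
    (hW : ∀ x : F, x ∈ W ↔ algebraMap F K x ∈ V) (hkW : ∀ c : k, algebraMap k F c ∈ W)
    (hkV : ∀ c : k, algebraMap k K c ∈ V) (hd : DenseIn V (algebraMap F K)) (hne : V ≠ ⊤) :
    resDegree (algebraMap k K) V hkV ≤ resDegree (algebraMap k F) W hkW := by
  letI a₁ : Algebra k (IsLocalRing.ResidueField W) :=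
    ((IsLocalRing.residue W).comp ((algebraMap k F).codRestrict W hkW)).toAlgebra
  letI a₂ : Algebra k (IsLocalRing.ResidueField V) :=
    ((IsLocalRing.residue V).comp ((algebraMap k K).codRestrict V hkV)).toAlgebra
  let φ : IsLocalRing.ResidueField W →ₐ[k] IsLocalRing.ResidueField V :=
    { resMap V W hW with
      commutes' := fun c => by
        change resMap V W hW (IsLocalRing.residue W ⟨algebraMap k F c, hkW c⟩) =
          IsLocalRing.residue V ⟨algebraMap k K c, hkV c⟩
        rw [resMap_residue]
        congr 1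
        exact Subtype.ext (IsScalarTower.algebraMap_apply k F K c).symm }
  refine _root_.trdeg_le_of_surjective φ ?_
  intro y
  obtain ⟨x, rfl⟩ := IsLocalRing.residue_surjective y
  obtain ⟨z, hz⟩ : ∃ z, z ∉ V := by
    by_contra h1
    push Not at h1
    exact hne (top_le_iff.1 fun x _ => h1 x)
  have hz0 : z ≠ 0 := by
    rintro rfl
    exact hz V.zero_mem
  obtain ⟨c, hc⟩ := hd (x : K) z⁻¹ (inv_ne_zero hz0)
  have hz1 : V.valuation z⁻¹ < 1 := by
    rw [map_inv₀]
    refine inv_lt_one_of_one_lt₀ ?_
    rw [← not_le, V.valuation_le_one_iff]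
    exact hz
  have h1 : V.valuation ((x : K) - algebraMap F K c) < 1 := hc.trans hz1
  have h2 : algebraMap F K c ∈ V := by
    have h3 : algebraMap F K c = (x : K) - ((x : K) - algebraMap F K c) := by ring
    rw [h3]
    exact V.toSubring.sub_mem x.2 ((V.valuation_le_one_iff _).1 h1.le)
  refine ⟨IsLocalRing.residue W ⟨c, (hW c).2 h2⟩, ?_⟩
  change resMap V W hW _ = _
  rw [resMap_residue]
  change IsLocalRing.residue V ⟨algebraMap F K c, h2⟩ = IsLocalRing.residue V x
  rw [← sub_eq_zero, ← map_sub, IsLocalRing.residue_eq_zero_iff, V.valuation_lt_one_iff]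
  have h4 : ((⟨algebraMap F K c, h2⟩ - x : V) : K) = -((x : K) - algebraMap F K c) := by
    push_cast
    ring
  rw [h4, Valuation.map_neg]
  exact h1

omit [Algebra k F] [Algebra k K] [IsScalarTower k F K] [Field k] in
theorem compRank_le {V V₁ : ValuationSubring K} {W W₁ : ValuationSubring F}
    (hW : ∀ x : F, x ∈ W ↔ algebraMap F K x ∈ V)
    (hW₁ : ∀ x : F, x ∈ W₁ ↔ algebraMap F K x ∈ V₁) :
    compRank W W₁ ≤ compRank V V₁ := by
  letI i₁ : AddCommGroup (CompGroup W W₁) := inferInstance
  letI i₂ : AddCommGroup (CompGroup V V₁) := inferInstance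
  let f : W₁.unitGroup →* V₁.unitGroup :=
    ((Units.map (algebraMap F K : F →* K)).comp W₁.unitGroup.subtype).codRestrict V₁.unitGroup
      (fun x => (ext_eq_one hW₁ _).1 x.2)
  have hf : ∀ x, ((f x : Kˣ) : K) = algebraMap F K ((x : Fˣ) : F) := fun x => rfl
  have hker : W.unitGroup.subgroupOf W₁.unitGroup =
      (V.unitGroup.subgroupOf V₁.unitGroup).comap f := by
    ext x
    rw [Subgroup.mem_comap, Subgroup.mem_subgroupOf, Subgroup.mem_subgroupOf]
    exact ext_eq_one hW _
  let g : (W₁.unitGroup ⧸ W.unitGroup.subgroupOf W₁.unitGroup) →*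
      (V₁.unitGroup ⧸ V.unitGroup.subgroupOf V₁.unitGroup) :=
    QuotientGroup.map _ _ f hker.le
  have hg : Function.Injective g := by
    rw [injective_iff_map_eq_one]
    intro x
    induction x using QuotientGroup.induction_on with
    | H x =>
      intro h
      have h1 : ((f x : V₁.unitGroup) : V₁.unitGroup ⧸ V.unitGroup.subgroupOf V₁.unitGroup) = 1 :=
        h
      rw [QuotientGroup.eq_one_iff] at h1 ⊢
      rw [hker]
      exact h1
  let l : CompGroup W W₁ →ₗ[ℤ] CompGroup V V₁ := (MonoidHom.toAdditive g).toIntLinearMap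
  exact LinearMap.rank_le_of_injective l hg

end

end Pool.Agent.LU2H
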