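import Pool.Agent.Lib.LU2G.RingV
import Pool.Agent.Lib.LU2H.Good

/-!
# LU2H: the local step for a domain of finite type
-/

set_option autoImplicit false

namespace Pool.Agent.LU2H

open Pool.Agent.LU2 Pool.Agent.LU2G Pool.Agent.LU2G.RingVAux
open Pool.Agent.LU1G (chartGen)

/-- If `A` is smooth over `k` at the centre of `V₁` and `V₁` covers `V`, there is a blowing up of
`Spec A` in an ideal `I` contained in no prime ideals but those containing the centre of `V` that is
smooth at the centre of the lift of `V`. -/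
theorem ring_unif (k A K : Type) [Field k] [PerfectField k] [CommRing A] [IsDomain A] [Algebra k A] [Algebra.FiniteType k A] [Field K] [Algebra A K]
    [Algebra k K] [IsScalarTower k A K] [IsFractionRing A K] (V V₁ : ValuationSubring K)
    (hcov : Covers V V₁) (hA : ∀ a : A, algebraMap A K a ∈ V) (hgood : CompGood k V V₁)
    (hsm : ∃ b : A, V₁.valuation (algebraMap A K b) = 1 ∧
      Algebra.Smooth k (Localization.Away b)) :
    ∃ (I : Ideal A) (g : A), g ∈ I ∧ g ≠ 0 ∧
      (∀ x ∈ I, V.valuation (algebraMap A K x) ≤ V.valuation (algebraMap A K g)) ∧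
      (∀ P : Ideal A, P.IsPrime → I ≤ P → ∀ a : A, V.valuation (algebraMap A K a) < 1 → a ∈ P) ∧
      ∃ t : K, t ∈ Algebra.adjoin k (chartGen I g) ∧ V.valuation t = 1 ∧
        Algebra.Smooth k (Algebra.adjoin k (chartGen I g ∪ {t⁻¹})) := by
  classical
  have hinj : Function.Injective (algebraMap A K) := IsFractionRing.injective A K
  have hnoeth : IsNoetherianRing A := Algebra.FiniteType.isNoetherianRing k A
  -- the image of `A`
  let A₁ : Subalgebra k K := (IsScalarTower.toAlgHom k A K).range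
  have hA₁ : ∀ z : K, z ∈ A₁ ↔ ∃ a : A, algebraMap A K a = z := fun z => Iff.rfl
  have hA₁V : ∀ z ∈ A₁, z ∈ V := by
    rintro z ⟨a, rfl⟩
    exact hA a
  have hA₁V₁ : ∀ z ∈ A₁, z ∈ V₁ := fun z hz => hcov.1.le (hA₁V z hz)
  have hA₁fg : A₁.FG := by
    have h1 : (⊤ : Subalgebra k A).FG := (inferInstance : Algebra.FiniteType k A).out
    have h2 := h1.map (IsScalarTower.toAlgHom k A K)
    rwa [Algebra.map_top] at h2
  -- the field of fractions
  have hA₁frac : IsFrac A₁ := by
    intro f
    obtain ⟨a, b, hb, hab⟩ := IsFractionRing.div_surjective (A := A) f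
    refine ⟨algebraMap A K a, ⟨a, rfl⟩, algebraMap A K b, ⟨b, rfl⟩, ?_, hab.symm⟩
    intro h
    exact nonZeroDivisors.ne_zero hb (hinj (h.trans (map_zero _).symm))
  -- regularity at the centre of `V₁`
  obtain ⟨b, hb1, hbs⟩ := hsm
  have hb0 : algebraMap A K b ≠ 0 := by
    intro h0
    rw [h0, map_zero] at hb1
    exact zero_ne_one hb1
  have hreg := isPar_of_smooth V₁ A₁ hA₁fg hA₁V₁ (t := algebraMap A K b) ⟨b, rfl⟩ hb1
    (smooth_adjoin_away hinj b hb0 hbs)
  obtain ⟨A', g₀, hch, ⟨n, z, hz⟩, hpow⟩ := local_step hcov A₁ hA₁fg hA₁V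
    hA₁frac hgood hreg
  have hA'V := hch.mem hA₁V
  obtain ⟨⟨g, rfl⟩, hg₀0, G, hG, hA'⟩ := hch
  replace hg₀0 : algebraMap A K g ≠ 0 := hg₀0
  change A' = Algebra.adjoin k ((A₁ : Set K) ∪ (fun x => x / algebraMap A K g) '' (G : Set K)) at hA'
  change ∀ c ∈ A₁, V.valuation c < 1 → ∃ M : ℕ, c ^ M / algebraMap A K g ∈ locV V A' at hpow
  replace hG : ∀ x ∈ G, x ∈ A₁ ∧ V.valuation x ≤ V.valuation (algebraMap A K g) := hG
  have hg0 : g ≠ 0 := by
    rintro rfl
    exact hg₀0 (map_zero _)
  have hlV : ∀ f ∈ locV V A', V.valuation f ≤ 1 := fun f hf =>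
    (V.valuation_le_one_iff f).2 (locV_mem hA'V f hf)
  have hAN : ∀ a : A, algebraMap A K a ∈ locV V A' := by
    intro a
    refine le_locV _ ?_
    rw [hA']
    exact Algebra.subset_adjoin (Or.inl ⟨a, rfl⟩)
  have hGN : ∀ x ∈ G, x / algebraMap A K g ∈ locV V A' := by
    intro x hx
    refine le_locV _ ?_
    rw [hA']
    exact Algebra.subset_adjoin (Or.inr ⟨x, hx, rfl⟩)
  -- the centre of `V`
  let p : Ideal A :=
    { carrier := {a | V.valuation (algebraMap A K a) < 1}
      add_mem' := fun {a c} ha hc => by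
        change V.valuation (algebraMap A K (a + c)) < 1
        rw [map_add]
        exact (V.valuation.map_add _ _).trans_lt (max_lt ha hc)
      zero_mem' := by
        change V.valuation (algebraMap A K 0) < 1
        rw [map_zero, map_zero]
        exact zero_lt_one
      smul_mem' := fun a c hc => by
        change V.valuation (algebraMap A K (a * c)) < 1
        rw [map_mul, map_mul]
        exact mul_lt_of_le_one_of_lt ((V.valuation_le_one_iff _).2 (hA a)) hc }
  have hp : ∀ a, a ∈ p ↔ V.valuation (algebraMap A K a) < 1 := fun a => Iff.rfl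
  obtain ⟨s, hs⟩ := (isNoetherianRing_iff_ideal_fg A).1 hnoeth p
  have hsp : ∀ c ∈ s, V.valuation (algebraMap A K c) < 1 := fun c hc => by
    rw [← hp, ← hs]
    exact Ideal.subset_span hc
  have hM1 : ∀ c ∈ s, ∃ M : ℕ, algebraMap A K c ^ M / algebraMap A K g ∈ locV V A' :=
    fun c hc => hpow _ ⟨c, rfl⟩ (hsp c hc)
  choose! M₀ hM₀ using hM1
  obtain ⟨M, hM⟩ : ∃ M : ℕ, ∀ c ∈ s, M₀ c ≤ M := ⟨s.sup M₀, fun c hc => Finset.le_sup hc⟩
  have hMc : ∀ c ∈ s, algebraMap A K (c ^ M) / algebraMap A K g ∈ locV V A' := by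
    intro c hc
    obtain ⟨j, hj⟩ := Nat.exists_eq_add_of_le (hM c hc)
    have h1 : algebraMap A K (c ^ M) / algebraMap A K g =
        algebraMap A K (c ^ j) * (algebraMap A K c ^ M₀ c / algebraMap A K g) := by
      rw [hj, map_pow, map_pow, pow_add]
      ring
    rw [h1]
    exact (locV V A').mul_mem (hAN _) (hM₀ c hc)
  -- the ideal
  choose! γ hγ using fun x (hx : x ∈ G) => (hA₁ x).1 (hG x hx).1
  let I : Ideal A := (Ideal.span {g} ⊔ Ideal.span (γ '' (G : Set K))) ⊔
    Ideal.span ((fun c => c ^ M) '' (s : Set A))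
  have hgI : g ∈ I :=
    Ideal.mem_sup_left (Ideal.mem_sup_left (Ideal.subset_span (Set.mem_singleton g)))
  let Q : Ideal A :=
    { carrier := {a | algebraMap A K a / algebraMap A K g ∈ locV V A'}
      add_mem' := fun {a c} ha hc => by
        change algebraMap A K (a + c) / algebraMap A K g ∈ locV V A'
        rw [map_add, add_div]
        exact (locV V A').add_mem ha hc
      zero_mem' := by
        change algebraMap A K 0 / algebraMap A K g ∈ locV V A'
        rw [map_zero, zero_div]
        exact (locV V A').zero_mem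
      smul_mem' := fun a c hc => by
        change algebraMap A K (a * c) / algebraMap A K g ∈ locV V A'
        rw [map_mul, mul_div_assoc]
        exact (locV V A').mul_mem (hAN a) hc }
  have hQ : ∀ a, a ∈ Q ↔ algebraMap A K a / algebraMap A K g ∈ locV V A' := fun a => Iff.rfl
  have hIQ : I ≤ Q := by
    refine sup_le (sup_le ?_ ?_) ?_
    · refine Ideal.span_le.2 ?_
      rintro _ rfl
      change _ ∈ Q
      rw [hQ, div_self hg₀0]
      exact (locV V A').one_mem
    · refine Ideal.span_le.2 ?_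
      rintro _ ⟨x, hx, rfl⟩
      change _ ∈ Q
      rw [hQ, hγ x hx]
      exact hGN x hx
    · refine Ideal.span_le.2 ?_
      rintro _ ⟨c, hc, rfl⟩
      change _ ∈ Q
      rw [hQ]
      exact hMc c hc
  refine ⟨I, g, hgI, hg0, ?_, ?_, ?_⟩
  · intro x hx
    have h1 := hlV _ (hIQ hx)
    rw [map_div₀] at h1
    rwa [div_le_one₀ (by rwa [Valuation.pos_iff])] at h1
  · intro P hP hIP a ha
    have h1 : p ≤ P := by
      rw [← hs]
      refine Ideal.span_le.2 fun c hc => ?_
      exact hP.mem_of_pow_mem M (hIP (Ideal.mem_sup_right (Ideal.subset_span ⟨c, hc, rfl⟩)))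
    exact h1 ((hp a).2 ha)
  -- the chart
  let S : Subalgebra k K := Algebra.adjoin k (chartGen I g)
  have hIS : ∀ x ∈ I, algebraMap A K x / algebraMap A K g ∈ S := fun x hx =>
    Algebra.subset_adjoin ⟨x, hx, rfl⟩
  have hAS : ∀ a : A, algebraMap A K a ∈ S := by
    intro a
    have h1 := hIS (a * g) (I.mul_mem_left a hgI)
    rwa [map_mul, mul_div_cancel_right₀ _ hg₀0] at h1
  have hSN : S ≤ locV V A' := by
    refine Algebra.adjoin_le ?_
    rintro _ ⟨x, hx, rfl⟩
    exact hIQ hx
  have hNS : locV V A' = locV V S := by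
    refine le_antisymm (locV_mono ?_) (locV_le hSN fun _ hf h1 => locV_inv hf h1)
    rw [hA']
    refine Algebra.adjoin_le ?_
    rintro z (⟨a, rfl⟩ | ⟨x, hx, rfl⟩)
    · exact hAS a
    · have h1 := hIS (γ x)
        (Ideal.mem_sup_left (Ideal.mem_sup_right (Ideal.subset_span ⟨x, hx, rfl⟩)))
      rwa [hγ x hx] at h1
  have hSV : ∀ f ∈ S, f ∈ V := fun f hf => locV_mem hA'V f (hSN hf)
  have hfg : S.FG := by
    obtain ⟨F, hF⟩ := (isNoetherianRing_iff_ideal_fg A).1 hnoeth I
    have hS : S = Algebra.adjoin k ((A₁ : Set K) ∪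
        (fun x => algebraMap A K x / algebraMap A K g) '' (F : Set A)) := by
      refine le_antisymm (Algebra.adjoin_le ?_) (Algebra.adjoin_le ?_)
      · rintro _ ⟨x, hx, rfl⟩
        change _ ∈ Algebra.adjoin k _
        rw [← hF] at hx
        induction hx using Submodule.span_induction with
        | mem y hy => exact Algebra.subset_adjoin (Or.inr ⟨y, hy, rfl⟩)
        | zero =>
          rw [map_zero, zero_div]
          exact Subalgebra.zero_mem _
        | add y y' _ _ h1 h2 =>
          rw [map_add, add_div]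
          exact Subalgebra.add_mem _ h1 h2
        | smul a y _ h1 =>
          rw [smul_eq_mul, map_mul, mul_div_assoc]
          exact Subalgebra.mul_mem _ (Algebra.subset_adjoin (Or.inl ⟨a, rfl⟩)) h1
      · rintro z (⟨a, rfl⟩ | ⟨x, hx, rfl⟩)
        · exact hAS a
        · exact hIS x (hF ▸ Ideal.subset_span hx)
    rw [hS, Algebra.adjoin_union, Algebra.adjoin_eq]
    exact hA₁fg.sup (Subalgebra.fg_def.2 ⟨_, F.finite_toSet.image _, rfl⟩)
  rw [hNS] at hz
  obtain ⟨t, htS, hvt, hsmt⟩ := smooth_of_isPar V S hfg hSV hz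
  refine ⟨t, htS, hvt, ?_⟩
  have h1 : Algebra.adjoin k (chartGen I g ∪ {t⁻¹}) =
      Algebra.adjoin k ((S : Set K) ∪ {t⁻¹}) := by
    refine le_antisymm (Algebra.adjoin_mono (Set.union_subset_union_left _ Algebra.subset_adjoin))
      (Algebra.adjoin_le ?_)
    rintro z (hz | hz)
    · exact Algebra.adjoin_mono Set.subset_union_left hz
    · exact Algebra.subset_adjoin (Or.inr hz)
  rw [h1]
  exact hsmt

end Pool.Agent.LU2H
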